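import Pool.Agent.Lib_helper70.Corson.Main

/-!
# Fleissner's Axiom R and the continuum hypothesis imply the reflection principle
-/

set_option autoImplicit false

namespace Pool.Agent.Lib_helper70.Cor

open Set Cardinal Topology Filter

universe u

/-- the ordinal `ω₁` as a type -/
abbrev Om1 : Type u := (aleph 1 : Cardinal.{u}).ord.ToType

theorem om1_bdd {J : Set Om1.{u}} (hJ : J.Countable) : ∃ i : Om1.{u}, ∀ j ∈ J, j < i := by
  by_contra hno
  push Not at hno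
  have h1 : (Set.univ : Set Om1.{u}) ⊆ ⋃ j ∈ J, Iic j := by
    intro i _
    obtain ⟨j, hj, hij⟩ := hno i
    exact mem_iUnion₂.2 ⟨j, hj, hij⟩
  have h2 : ∀ j : Om1.{u}, (Iic j).Countable := by
    intro j
    have h3 : #(Iio j) < aleph 1 := by
      have := mk_Iio_lt j (by simp)
      simpa using this
    have h4 : (Iio j).Countable := by
      rw [← le_aleph0_iff_set_countable]
      exact Order.lt_succ_iff.1 (h3.trans_eq succ_aleph0.symm)
    have h5 : Iic j = insert j (Iio j) := by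
      ext β
      simp [le_iff_eq_or_lt]
    rw [h5]
    exact h4.insert j
  have h6 : (Set.univ : Set Om1.{u}).Countable := (hJ.biUnion fun j _ => h2 j).mono h1
  have h7 : #Om1.{u} ≤ ℵ₀ := by
    rw [← mk_univ]
    exact h6.le_aleph0
  rw [show #Om1.{u} = aleph 1 by simp] at h7
  exact absurd h7 (not_le.2 aleph0_lt_aleph_one)

variable {Z : Type u}

/-- closed under countably many `ω`-ary operations -/
def OmCld (h : ℕ → (ℕ → Z) → Z) (Y : Set Z) : Prop :=
  ∀ (k : ℕ) (a : ℕ → Z), (∀ n, a n ∈ Y) → h k a ∈ Y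

/-- `T` is an `ω₁`-club of `[Z]^{ω₁}` (a tight unbounded family) -/
structure Tight (T : Set (Set Z)) : Prop where
  /-- the members have cardinality `ℵ₁` -/
  card : ∀ Y ∈ T, #Y = aleph 1
  /-- unbounded -/
  unb : ∀ A : Set Z, #A = aleph 1 → ∃ Y ∈ T, A ⊆ Y
  /-- closed under unions of increasing sequences of length `ω₁` -/
  chain : ∀ Y : Om1.{u} → Set Z, Monotone Y → (∀ i, Y i ∈ T) → (⋃ i, Y i) ∈ T

/-- stages of the closure under `ω`-ary operations -/
noncomputable def ost (h : ℕ → (ℕ → Z) → Z) (A : Set Z) : Om1.{u} → Set Z :=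
  WellFounded.fix (wellFounded_lt (α := Om1.{u})) fun i ih =>
    A ∪ ⋃ j : {j // j < i}, (ih j.1 j.2 ∪ {z | ∃ (k : ℕ) (a : ℕ → Z),
      (∀ n, a n ∈ ih j.1 j.2) ∧ z = h k a})

theorem ost_eq (h : ℕ → (ℕ → Z) → Z) (A : Set Z) (i : Om1.{u}) : ost h A i =
    A ∪ ⋃ j : {j // j < i}, (ost h A j.1 ∪ {z | ∃ (k : ℕ) (a : ℕ → Z),
      (∀ n, a n ∈ ost h A j.1) ∧ z = h k a}) := by
  unfold ost
  rw [WellFounded.fix_eq]

theorem ost_mono (h : ℕ → (ℕ → Z) → Z) (A : Set Z) : Monotone (ost h A) := by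
  intro i j hij
  rcases lt_or_eq_of_le hij with h1 | h1
  · rw [ost_eq h A j]
    intro z hz
    exact Or.inr (mem_iUnion.2 ⟨⟨i, h1⟩, Or.inl hz⟩)
  · rw [h1]

theorem mk_ost_le (h : ℕ → (ℕ → Z) → Z) {A : Set Z} {c : Cardinal.{u}} (hc : c ^ ℵ₀ = c)
    (h1 : aleph 1 ≤ c) (hA : #A ≤ c) (i : Om1.{u}) : #(ost h A i) ≤ c := by
  have h0 : ℵ₀ ≤ c := (aleph0_lt_aleph_one.le).trans h1
  induction i using WellFoundedLT.induction with
  | ind i ih =>
    rw [ost_eq]
    refine (mk_union_le _ _).trans ((add_le_add hA ?_).trans (add_eq_self h0).le)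
    have h2 : #{j : Om1.{u} // j < i} ≤ c := by
      refine (mk_subtype_le _).trans ?_
      simpa using h1
    refine (mk_iUnion_le _).trans ((mul_le_mul' h2 ?_).trans (mul_eq_self h0).le)
    refine ciSup_le' fun j => ?_
    refine (mk_union_le _ _).trans ((add_le_add (ih j.1 j.2) ?_).trans (add_eq_self h0).le)
    have h3 : #(ℕ × (ℕ → ost h A j.1)) ≤ c := by
      have h4 : #(ℕ → ost h A j.1) ≤ c := by
        have h5 : #(ℕ → ost h A j.1) = #(ost h A j.1) ^ ℵ₀ := by simp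
        rw [h5]
        exact (power_le_power_right (ih j.1 j.2)).trans hc.le
      rw [mk_prod]
      simp only [lift_uzero, mk_nat, lift_aleph0]
      exact (mul_le_mul' h0 h4).trans (mul_eq_self h0).le
    refine le_trans ?_ h3
    refine mk_le_of_surjective (f := fun p : ℕ × (ℕ → ost h A j.1) =>
      (⟨h p.1 fun n => (p.2 n).1, p.1, fun n => (p.2 n).1, fun n => (p.2 n).2, rfl⟩ :
        {z | ∃ (k : ℕ) (a : ℕ → Z), (∀ n, a n ∈ ost h A j.1) ∧ z = h k a})) ?_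
    rintro ⟨z, k, a, ha, rfl⟩
    exact ⟨(k, fun n => ⟨a n, ha n⟩), rfl⟩

/-- closure of a set of size `≤ c` under `ω`-ary operations, `c ^ ω = c` -/
theorem exists_omcld (h : ℕ → (ℕ → Z) → Z) {A : Set Z} {c : Cardinal.{u}} (hc : c ^ ℵ₀ = c)
    (h1 : aleph 1 ≤ c) (hA : #A ≤ c) : ∃ Y : Set Z, A ⊆ Y ∧ #Y ≤ c ∧ OmCld h Y := by
  have h0 : ℵ₀ ≤ c := (aleph0_lt_aleph_one.le).trans h1
  refine ⟨⋃ i, ost h A i, ?_, ?_, ?_⟩
  · have : Nonempty Om1.{u} := by
      obtain ⟨i, _⟩ := om1_bdd (J := (∅ : Set Om1.{u})) countable_empty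
      exact ⟨i⟩
    obtain ⟨i⟩ := this
    refine Subset.trans ?_ (subset_iUnion _ i)
    rw [ost_eq]
    exact subset_union_left
  · refine (mk_iUnion_le _).trans ((mul_le_mul' ?_ ?_).trans (mul_eq_self h0).le)
    · simpa using h1
    · exact ciSup_le' fun i => mk_ost_le h hc h1 hA i
  · intro k a ha
    have h2 : ∀ n, ∃ i, a n ∈ ost h A i := fun n => mem_iUnion.1 (ha n)
    choose i hi using h2
    obtain ⟨j, hj⟩ := om1_bdd (countable_range i)
    obtain ⟨j', hj'⟩ := om1_bdd (countable_singleton j)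
    refine mem_iUnion.2 ⟨j', ?_⟩
    rw [ost_eq]
    exact Or.inr (mem_iUnion.2 ⟨⟨j, hj' j rfl⟩, Or.inr ⟨k, a, fun n =>
      ost_mono h A (hj _ ⟨n, rfl⟩).le (hi n), rfl⟩⟩)

/-- Fleissner's Axiom R -/
def AxiomR : Prop := ∀ (Z : Type u), aleph 2 ≤ #Z → ∀ S T : Set (Set Z), StatIn Set.univ S →
  Tight T → ∃ Y ∈ T, StatIn Y S

theorem refl_of_axiomR (hCH : (𝔠 : Cardinal.{u}) = aleph 1) (hR : AxiomR.{u}) (Z : Type u)
    (S : Set (Set Z)) (hS : StatIn Set.univ S) (h : ℕ → (ℕ → Z) → Z) :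
    ∃ Y : Set Z, #Y ≤ 𝔠 ∧ OmCld h Y ∧ StatIn Y S := by
  rcases le_or_gt #Z 𝔠 with h1 | h1
  · exact ⟨Set.univ, by rwa [mk_univ], fun _ _ _ => mem_univ _, hS⟩
  · have h2 : aleph 2 ≤ #Z := by
      rw [hCH] at h1
      have h3 : (aleph 2 : Cardinal.{u}) = Order.succ (aleph 1) := by
        rw [succ_aleph]
        norm_num
      rw [h3]
      exact Order.succ_le_of_lt h1
    have hT : Tight {Y : Set Z | #Y = aleph 1 ∧ OmCld h Y} := by
      refine ⟨fun Y hY => hY.1, fun A hA => ?_, fun Y hY hYT => ⟨?_, ?_⟩⟩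
      · obtain ⟨Y, hAY, hYc, hYh⟩ := exists_omcld h (c := 𝔠) continuum_power_aleph0 hCH.ge
          (hA.trans hCH.symm).le
        exact ⟨Y, ⟨le_antisymm (hYc.trans hCH.le) (hA.ge.trans (mk_le_mk_of_subset hAY)), hYh⟩,
          hAY⟩
      · refine le_antisymm ?_ ?_
        · refine (mk_iUnion_le _).trans ((mul_le_mul' (b := aleph 1) ?_ ?_).trans
            (mul_eq_self (aleph0_le_aleph 1)).le)
          · simp
          · exact ciSup_le' fun i => (hYT i).1.le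
        · obtain ⟨i, _⟩ := om1_bdd (J := (∅ : Set Om1.{u})) countable_empty
          exact (hYT i).1.ge.trans (mk_le_mk_of_subset (subset_iUnion Y i))
      · intro k a ha
        have h2 : ∀ n, ∃ i, a n ∈ Y i := fun n => mem_iUnion.1 (ha n)
        choose i hi using h2
        obtain ⟨j, hj⟩ := om1_bdd (countable_range i)
        exact mem_iUnion.2 ⟨j, (hYT j).2 k a fun n => hY (hj _ ⟨n, rfl⟩).le (hi n)⟩
    obtain ⟨Y, hY, hYS⟩ := hR Z h2 S _ hS hT
    exact ⟨Y, hY.1.le.trans hCH.ge, hY.2, hYS⟩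

end Pool.Agent.Lib_helper70.Cor
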