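import Pool.Agent.Lib_helper70.Corson.Skel

/-!
# The embedding into a `Σ`-product
-/

set_option autoImplicit false

namespace Pool.Agent.Lib_helper70.Cor

open Set Cardinal Topology Filter

universe u

variable {X : Type u} [TopologicalSpace X]

/-- `K` embeds in a `Σ`-product of real lines (for compact `K`) -/
def SigmaOn (K : Set X) : Prop :=
  ∃ (Γ : Type u) (φ : X → Γ → ℝ), ContinuousOn φ K ∧ InjOn φ K ∧
    ∀ x ∈ K, (Function.support (φ x)).Countable

theorem sigma_countable {M : Set (X ⊕ C(X, ℝ))} (hc : M.Countable) (hG : Good M) :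
    SigmaOn (KK M) := by
  have h1 : (fns M).Countable := hc.preimage Sum.inr_injective
  have := h1.to_subtype
  refine ⟨fns M, fun x f => f.1 x, ?_, ?_, fun x _ => to_countable _⟩
  · exact (continuous_pi fun f => f.1.continuous).continuousOn
  · intro x hx y hy h
    exact hG x hx y hy fun f hf => congrFun h ⟨f, hf⟩

variable [CompactSpace X]

section Chain

variable {ι : Type u} [LinearOrder ι] [WellFoundedLT ι]

omit [WellFoundedLT ι] in
theorem jump_aux {g : Finset (X ⊕ C(X, ℝ)) → Set (X ⊕ C(X, ℝ))} (hg : ∀ s, (g s).Countable)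
    (H : ∀ N : Set (X ⊕ C(X, ℝ)), N.Countable → Cld (gg g) N → Good N)
    (a : ι → X ⊕ C(X, ℝ)) (x : X) {I J : Set ι} (hI : IsLowerSet I)
    (hJ : ∀ α ∈ J, ret (hull (gg g) (a '' Iic α)) x ≠ ret (hull (gg g) (a '' Iio α)) x)
    (h1 : ∀ β ∈ I, (J ∩ Iic β).Countable) : (J ∩ I).Countable := by
  classical
  by_contra hcon
  have hc : ∀ A, Cld (gg g) (hull (gg g) A) := hull_cld _
  have hG : ∀ A, Good (hull (gg g) A) := fun A => cl_good hg H (hc A)
  obtain ⟨N, hN, hNc, hNcl, hy⟩ := cl_tight hg H (hc (a '' I)) (ret_mem (hc (a '' I)) x)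
  have h2 : ∀ z ∈ N, ∃ G : Finset ι, (G : Set ι) ⊆ I ∧ z ∈ hull (gg g) (a '' G) := by
    intro z hz
    obtain ⟨F, hF, hzF⟩ := mem_hull_finite (hN hz)
    obtain ⟨G, hG, hGF⟩ := (Finset.subset_set_image_iff).1 hF
    refine ⟨G, hG, ?_⟩
    rw [← hGF] at hzF
    simpa using hzF
  choose! G hGI hzG using h2
  have h3 : (⋃ z ∈ N, ⋃ β ∈ (G z : Set ι), J ∩ Iic β).Countable :=
    hNc.biUnion fun z hz => (G z).countable_toSet.biUnion fun β hβ => h1 β (hGI z hz hβ)
  have h4 : ∃ α ∈ J ∩ I, α ∉ ⋃ z ∈ N, ⋃ β ∈ (G z : Set ι), J ∩ Iic β := by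
    by_contra hno
    push Not at hno
    exact hcon (h3.mono hno)
  obtain ⟨α, ⟨hαJ, hαI⟩, hα⟩ := h4
  have h5 : ∀ z ∈ N, ∀ β ∈ G z, β < α := by
    intro z hz β hβ
    by_contra hle
    push Not at hle
    exact hα (mem_iUnion₂.2 ⟨z, hz, mem_iUnion₂.2 ⟨β, hβ, hαJ, hle⟩⟩)
  have h6 : N ⊆ hull (gg g) (a '' Iio α) := by
    intro z hz
    exact hull_mono (image_mono fun β hβ => h5 z hz β hβ) (hzG z hz)
  have h7 : hull (gg g) (a '' Iio α) ⊆ hull (gg g) (a '' Iic α) :=
    hull_mono (image_mono Iio_subset_Iic_self)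
  have h8 : hull (gg g) (a '' Iic α) ⊆ hull (gg g) (a '' I) :=
    hull_mono (image_mono fun β hβ => hI hβ hαI)
  have h9 : ret (hull (gg g) (a '' Iic α)) x = ret (hull (gg g) (a '' I)) x := by
    rw [← ret_ret (hc _) (hc (a '' I)) (hG _) h8 x]
    exact ret_self (hc _) (hG _) (KK_mono (h6.trans h7) hy)
  have h10 : ret (hull (gg g) (a '' Iio α)) x = ret (hull (gg g) (a '' I)) x := by
    rw [← ret_ret (hc _) (hc (a '' I)) (hG _) (h7.trans h8) x]
    exact ret_self (hc _) (hG _) (KK_mono h6 hy)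
  exact hJ α hαJ (h9.trans h10.symm)

theorem jump_countable {g : Finset (X ⊕ C(X, ℝ)) → Set (X ⊕ C(X, ℝ))}
    (hg : ∀ s, (g s).Countable)
    (H : ∀ N : Set (X ⊕ C(X, ℝ)), N.Countable → Cld (gg g) N → Good N)
    (a : ι → X ⊕ C(X, ℝ)) (x : X) :
    {α | ret (hull (gg g) (a '' Iic α)) x ≠ ret (hull (gg g) (a '' Iio α)) x}.Countable := by
  set J := {α | ret (hull (gg g) (a '' Iic α)) x ≠ ret (hull (gg g) (a '' Iio α)) x} with hJ
  have h1 : ∀ δ, (J ∩ Iio δ).Countable := by
    intro δ
    induction δ using WellFoundedLT.induction with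
    | ind δ ih =>
      refine jump_aux hg H a x (isLowerSet_Iio δ) (fun α hα => hα) fun β hβ => ?_
      refine ((ih β hβ).union (countable_singleton β)).mono ?_
      rintro γ ⟨h1, h2⟩
      rcases lt_or_eq_of_le h2 with h | h
      · exact Or.inl ⟨h1, h⟩
      · exact Or.inr h
  have h2 := jump_aux hg H a x (I := univ) (J := J) isLowerSet_univ (fun α hα => hα)
    fun β _ => by
      refine ((h1 β).union (countable_singleton β)).mono ?_
      rintro γ ⟨h1, h2⟩
      rcases lt_or_eq_of_le h2 with h | h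
      · exact Or.inl ⟨h1, h⟩
      · exact Or.inr h
  simpa using h2

/-- the step of the induction -/
theorem sigma_step {g : Finset (X ⊕ C(X, ℝ)) → Set (X ⊕ C(X, ℝ))}
    (hg : ∀ s, (g s).Countable)
    (H : ∀ N : Set (X ⊕ C(X, ℝ)), N.Countable → Cld (gg g) N → Good N)
    (a : ι → X ⊕ C(X, ℝ)) (hM : Cld (gg g) (range a))
    (hs : ∀ α, SigmaOn (KK (hull (gg g) (a '' Iic α)))) : SigmaOn (KK (range a)) := by
  classical
  have hc : ∀ A, Cld (gg g) (hull (gg g) A) := hull_cld _
  have hG : ∀ A, Good (hull (gg g) A) := fun A => cl_good hg H (hc A)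
  obtain ⟨Γ0, φ0, hφ0c, hφ0i, hφ0s⟩ := sigma_countable
    (hull_countable (gg_countable hg) countable_empty) (hG ∅)
  choose Γ φ hφc hφi hφs using hs
  have hsub : ∀ α, hull (gg g) (a '' Iio α) ⊆ hull (gg g) (a '' Iic α) := fun α =>
    hull_mono (image_mono Iio_subset_Iic_self)
  refine ⟨Γ0 ⊕ (Σ α, Γ α), fun x => Sum.elim (φ0 (ret (hull (gg g) ∅) x))
    (fun i => φ i.1 (ret (hull (gg g) (a '' Iic i.1)) x) i.2 -
      φ i.1 (ret (hull (gg g) (a '' Iio i.1)) x) i.2), ?_, ?_, ?_⟩
  · refine Continuous.continuousOn (continuous_pi ?_)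
    rintro (γ | ⟨α, γ⟩)
    · have h1 : Continuous fun x => φ0 (ret (hull (gg g) ∅) x) :=
        hφ0c.comp_continuous (ret_continuous (hc _) (hG _)) fun x => ret_mem (hc _) x
      exact (continuous_apply γ).comp h1
    · have h1 : Continuous fun x => φ α (ret (hull (gg g) (a '' Iic α)) x) :=
        (hφc α).comp_continuous (ret_continuous (hc _) (hG _)) fun x => ret_mem (hc _) x
      have h2 : Continuous fun x => φ α (ret (hull (gg g) (a '' Iio α)) x) :=
        (hφc α).comp_continuous (ret_continuous (hc _) (hG _)) fun x =>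
          KK_mono (hsub α) (ret_mem (hc _) x)
      exact ((continuous_apply γ).comp h1).sub ((continuous_apply γ).comp h2)
  · intro x hx y hy hxy
    have h0 : ret (hull (gg g) ∅) x = ret (hull (gg g) ∅) y :=
      hφ0i (ret_mem (hc _) x) (ret_mem (hc _) y) (funext fun γ => congrFun hxy (Sum.inl γ))
    have h1 : ∀ α, ret (hull (gg g) (a '' Iic α)) x = ret (hull (gg g) (a '' Iic α)) y := by
      intro α
      induction α using WellFoundedLT.induction with
      | ind α ih =>
        have h2 : ret (hull (gg g) (a '' Iio α)) x = ret (hull (gg g) (a '' Iio α)) y := by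
          refine ret_unique (hc _) (hG _) (ret_mem (hc _) y) fun f hf => ?_
          rw [ret_eq (hc _) y hf]
          obtain ⟨F, hF, hfF⟩ := mem_hull_finite hf
          obtain ⟨G, hGI, hGF⟩ := (Finset.subset_set_image_iff).1 hF
          rcases G.eq_empty_or_nonempty with hG0 | hG0
          · have h3 : f ∈ fns (hull (gg g) ∅) := by
              rw [← hGF, hG0] at hfF
              have h5 : Sum.inr f ∈ hull (gg g) ∅ := by simpa using hfF
              exact h5
            rw [← ret_eq (hc _) x h3, ← ret_eq (hc _) y h3, h0]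
          · have h3 : f ∈ fns (hull (gg g) (a '' Iic (G.max' hG0))) := by
              refine hull_mono ?_ hfF
              rw [← hGF]
              intro z hz
              obtain ⟨β, hβ, rfl⟩ := Finset.mem_image.1 (Finset.mem_coe.1 hz)
              exact ⟨β, G.le_max' β hβ, rfl⟩
            have h4 := ih _ (hGI (G.max'_mem hG0))
            rw [← ret_eq (hc _) x h3, ← ret_eq (hc _) y h3, h4]
        refine hφi α (ret_mem (hc _) x) (ret_mem (hc _) y) (funext fun γ => ?_)
        have h3 := congrFun hxy (Sum.inr ⟨α, γ⟩)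
        simp only [Sum.elim_inr] at h3
        rw [h2] at h3
        exact sub_left_injective h3
    refine cl_good hg H hM x hx y hy fun f hf => ?_
    obtain ⟨β, hβ⟩ := hf
    have h2 : f ∈ fns (hull (gg g) (a '' Iic β)) := subset_hull _ _ ⟨β, le_rfl, hβ⟩
    rw [← ret_eq (hc _) x h2, ← ret_eq (hc _) y h2, h1]
  · intro x _
    have h1 := jump_countable hg H a x
    refine (((hφ0s _ (ret_mem (hc _) x)).image Sum.inl).union
      ((h1.biUnion fun α _ => ((hφs α _ (ret_mem (hc _) x)).union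
        (hφs α _ (KK_mono (hsub α) (ret_mem (hc _) x)))).image fun γ =>
          (Sum.inr ⟨α, γ⟩ : Γ0 ⊕ (Σ α, Γ α))))).mono ?_
    rintro (γ | ⟨α, γ⟩) hγ
    · exact Or.inl ⟨γ, hγ, rfl⟩
    · refine Or.inr (mem_iUnion₂.2 ⟨α, ?_, γ, ?_, rfl⟩)
      · intro h2
        apply hγ
        simp only [Sum.elim_inr]
        rw [h2, sub_self]
      · by_contra hno
        rw [mem_union, not_or] at hno
        apply hγ
        simp only [Sum.elim_inr]
        rw [Function.notMem_support.1 hno.1, Function.notMem_support.1 hno.2, sub_self]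

end Chain

theorem sigma_of_cl {g : Finset (X ⊕ C(X, ℝ)) → Set (X ⊕ C(X, ℝ))}
    (hg : ∀ s, (g s).Countable)
    (H : ∀ N : Set (X ⊕ C(X, ℝ)), N.Countable → Cld (gg g) N → Good N)
    (μ : Cardinal.{u}) : ∀ M : Set (X ⊕ C(X, ℝ)), #M = μ → Cld (gg g) M → SigmaOn (KK M) := by
  induction μ using WellFoundedLT.induction with
  | ind μ ih =>
    intro M hμ hM
    rcases le_or_gt μ ℵ₀ with h0 | h0
    · have hc : M.Countable := mk_le_aleph0_iff.1 (hμ.trans_le h0)
      exact sigma_countable hc (H M hc hM)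
    · have h1 : #μ.ord.ToType = #M := by simp [hμ]
      obtain ⟨e⟩ := Cardinal.eq.1 h1
      have h2 : range (fun α => (e α : X ⊕ C(X, ℝ))) = M := by
        ext z
        constructor
        · rintro ⟨α, rfl⟩
          exact (e α).2
        · intro hz
          exact ⟨e.symm ⟨z, hz⟩, by simp⟩
      have h3 := sigma_step hg H (fun α => (e α : X ⊕ C(X, ℝ))) (h2.symm ▸ hM) (by
        intro α
        have h4 : #(Iic α) < μ := by
          have h5 : Iic α = insert α (Iio α) := by
            ext β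
            simp [le_iff_eq_or_lt]
          rw [h5]
          refine (mk_insert_le).trans_lt ?_
          exact add_lt_of_lt h0.le (mk_Iio_toType_ord_lt α) (one_lt_aleph0.trans h0)
        refine ih _ ?_ _ rfl (hull_cld _ _)
        refine (mk_hull_le (gg_countable hg) (c := max ℵ₀ #(Iic α)) (le_max_left _ _) ?_).trans_lt
          (max_lt h0 h4)
        exact mk_image_le.trans (le_max_right _ _))
      rw [h2] at h3
      exact h3

/-- **Bandlow's criterion.** -/
theorem sigma_univ {g : Finset (X ⊕ C(X, ℝ)) → Set (X ⊕ C(X, ℝ))}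
    (hg : ∀ s, (g s).Countable)
    (H : ∀ N : Set (X ⊕ C(X, ℝ)), N.Countable → Cld g N → Good N) :
    SigmaOn (univ : Set X) := by
  have h := sigma_of_cl hg (fun N hN hcl => H N hN (hcl.mono fun _ => subset_union_left)) _
    (univ : Set (X ⊕ C(X, ℝ))) rfl (cld_univ _)
  have h2 : KK (Set.univ : Set (X ⊕ C(X, ℝ))) = Set.univ := by
    unfold KK pts
    simp
  rwa [h2] at h

end Pool.Agent.Lib_helper70.Cor
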