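import Mathlib

/-!
# Closure systems of finitary operations with countably many values
-/

set_option autoImplicit false

namespace Pool.Agent.Lib_helper70.Cor

open Set Cardinal

universe u

variable {Z : Type u}

/-- `N` is closed under `g`. -/
def Cld (g : Finset Z → Set Z) (N : Set Z) : Prop := ∀ s : Finset Z, (s : Set Z) ⊆ N → g s ⊆ N

/-- the least closed set containing `A` -/
def hull (g : Finset Z → Set Z) (A : Set Z) : Set Z := ⋂₀ {N | Cld g N ∧ A ⊆ N}

theorem hull_cld (g : Finset Z → Set Z) (A : Set Z) : Cld g (hull g A) :=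
  fun s hs => subset_sInter fun _ hN => hN.1 s (hs.trans (sInter_subset_of_mem hN))

theorem subset_hull (g : Finset Z → Set Z) (A : Set Z) : A ⊆ hull g A :=
  subset_sInter fun _ h => h.2

theorem hull_min {g : Finset Z → Set Z} {A N : Set Z} (h : Cld g N) (hA : A ⊆ N) :
    hull g A ⊆ N := sInter_subset_of_mem ⟨h, hA⟩

theorem hull_mono {g : Finset Z → Set Z} {A B : Set Z} (h : A ⊆ B) : hull g A ⊆ hull g B :=
  hull_min (hull_cld g B) (h.trans (subset_hull g B))

theorem Cld.inter {g : Finset Z → Set Z} {M N : Set Z} (hM : Cld g M) (hN : Cld g N) :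
    Cld g (M ∩ N) := fun s hs => subset_inter (hM s (hs.trans inter_subset_left))
      (hN s (hs.trans inter_subset_right))

theorem Cld.mono {g g' : Finset Z → Set Z} {M : Set Z} (h : ∀ s, g s ⊆ g' s) (hM : Cld g' M) :
    Cld g M := fun s hs => (h s).trans (hM s hs)

theorem cld_univ (g : Finset Z → Set Z) : Cld g univ := fun _ _ => subset_univ _

/-- finite character -/
theorem mem_hull_finite {g : Finset Z → Set Z} {A : Set Z} {z : Z} (hz : z ∈ hull g A) :
    ∃ F : Finset Z, (F : Set Z) ⊆ A ∧ z ∈ hull g F := by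
  classical
  have h : hull g A ⊆ {z | ∃ F : Finset Z, (F : Set Z) ⊆ A ∧ z ∈ hull g F} := by
    refine hull_min ?_ ?_
    · intro s hs w hw
      have hs' : ∀ x ∈ s, ∃ F : Finset Z, (F : Set Z) ⊆ A ∧ x ∈ hull g F := fun x hx => hs hx
      choose! F hF using hs'
      refine ⟨s.biUnion F, ?_, ?_⟩
      · intro x hx
        obtain ⟨y, hy, hx⟩ := Finset.mem_biUnion.1 hx
        exact (hF y hy).1 hx
      · refine hull_cld g _ s ?_ hw
        intro x hx
        refine hull_mono ?_ (hF x hx).2
        intro t ht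
        exact Finset.mem_biUnion.2 ⟨x, hx, ht⟩
    · intro x hx
      exact ⟨{x}, by simpa using hx, subset_hull _ _ (by simp)⟩
  exact h hz

/-- one step of the closure -/
def nxt (g : Finset Z → Set Z) (B : Set Z) : Set Z :=
  B ∪ ⋃ s : Finset B, g (s.map (Function.Embedding.subtype _))

/-- stages of the closure -/
def stg (g : Finset Z → Set Z) (A : Set Z) : ℕ → Set Z
  | 0 => A
  | n + 1 => nxt g (stg g A n)

theorem stg_mono (g : Finset Z → Set Z) (A : Set Z) : Monotone (stg g A) :=
  monotone_nat_of_le_succ fun _ => subset_union_left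

theorem hull_subset_stg (g : Finset Z → Set Z) (A : Set Z) : hull g A ⊆ ⋃ n, stg g A n := by
  classical
  refine hull_min ?_ (subset_iUnion (stg g A) 0)
  intro s hs
  have h1 : ∀ x ∈ s, ∃ n, x ∈ stg g A n := fun x hx => mem_iUnion.1 (hs hx)
  choose! n hn using h1
  set m := s.sup n with hm
  have h2 : ∀ x ∈ s, x ∈ stg g A m := fun x hx => stg_mono g A (Finset.le_sup hx) (hn x hx)
  set t : Finset (stg g A m) := s.attach.map
    ⟨fun x => ⟨x.1, h2 x.1 x.2⟩, fun x y h => Subtype.ext (by simpa using h)⟩ with ht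
  have h3 : t.map (Function.Embedding.subtype _) = s := by
    ext x
    simp only [ht, Finset.mem_map, Finset.mem_attach, true_and,
      Subtype.exists, Function.Embedding.subtype_apply]
    constructor
    · rintro ⟨a, ha, ⟨b, hb, h⟩, rfl⟩
      have h' : b = a := congrArg Subtype.val h
      exact h' ▸ hb
    · intro hx
      exact ⟨x, h2 x hx, ⟨x, hx, rfl⟩, rfl⟩
  intro z hz
  refine mem_iUnion.2 ⟨m + 1, Or.inr (mem_iUnion.2 ⟨t, ?_⟩)⟩
  rw [h3]
  exact hz

theorem mk_nxt_le {g : Finset Z → Set Z} (hg : ∀ s, (g s).Countable) {B : Set Z} {c : Cardinal.{u}}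
    (hc : ℵ₀ ≤ c) (hB : #B ≤ c) : #(nxt g B) ≤ c := by
  classical
  have h1 : #(Finset B) ≤ c := by
    have h2 : #(Finset B) ≤ #(List B) :=
      mk_le_of_surjective (f := List.toFinset) fun s => ⟨s.toList, Finset.toList_toFinset s⟩
    exact h2.trans ((mk_list_le_max _).trans (max_le hc hB))
  refine (mk_union_le _ _).trans ((add_le_add hB ?_).trans (add_eq_self hc).le)
  refine (mk_iUnion_le _).trans ((mul_le_mul' h1 ?_).trans (mul_eq_self hc).le)
  exact ciSup_le' fun s => ((hg _).le_aleph0).trans hc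

theorem mk_hull_le {g : Finset Z → Set Z} (hg : ∀ s, (g s).Countable) {A : Set Z} {c : Cardinal.{u}}
    (hc : ℵ₀ ≤ c) (hA : #A ≤ c) : #(hull g A) ≤ c := by
  refine (mk_le_mk_of_subset (hull_subset_stg g A)).trans ?_
  have h1 : ∀ n, #(stg g A n) ≤ c := by
    intro n
    induction n with
    | zero => exact hA
    | succ n ih => exact mk_nxt_le hg hc ih
  have h2 : (⋃ n, stg g A n) = ⋃ n : ULift.{u} ℕ, stg g A n.down := by
    ext z
    simp only [mem_iUnion]
    exact ⟨fun ⟨n, hn⟩ => ⟨⟨n⟩, hn⟩, fun ⟨n, hn⟩ => ⟨n.down, hn⟩⟩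
  rw [h2]
  refine (mk_iUnion_le _).trans ((mul_le_mul' ?_ ?_).trans (mul_eq_self hc).le)
  · simpa using hc
  · exact ciSup_le' fun n => h1 n.down

theorem hull_countable {g : Finset Z → Set Z} (hg : ∀ s, (g s).Countable) {A : Set Z}
    (hA : A.Countable) : (hull g A).Countable := by
  have h := mk_hull_le hg le_rfl hA.le_aleph0
  exact (mk_le_aleph0_iff.1 h)

end Pool.Agent.Lib_helper70.Cor
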