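import Pool.Agent.Lib_helper70.Corson.Refl

/-!
# A reflection principle which makes Corson compactness reflect
-/

set_option autoImplicit false

namespace Pool.Agent.Lib_helper70.Cor

open Set Cardinal Topology Filter

universe u

section Main

variable {X : Type u} [TopologicalSpace X] [CompactSpace X] [T2Space X]

omit [CompactSpace X] [T2Space X] in
/-- finitely many functions of `F` separate the two sides of a coordinate -/
theorem exists_sepfin {K : Set X} (hK : IsCompact K) (hKc : IsClosed K) {F : Set C(X, ℝ)}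
    (hF : ∀ x ∈ K, ∀ y ∈ K, x ≠ y → ∃ f ∈ F, f x ≠ f y) {ψ : X → ℝ} (hψ : ContinuousOn ψ K)
    (p q : ℝ) : ∃ U : Finset C(X, ℝ), (U : Set C(X, ℝ)) ⊆ F ∧
      (p < q → ∀ x ∈ K, ∀ y ∈ K, ψ x ≤ p → q ≤ ψ y → ∃ u ∈ U, u x ≠ u y) := by
  classical
  by_cases hpq : p < q
  · have h1 : IsCompact (K ∩ ψ ⁻¹' Iic p) :=
      hK.of_isClosed_subset (hψ.preimage_isClosed_of_isClosed hKc isClosed_Iic) inter_subset_left
    have h2 : IsCompact (K ∩ ψ ⁻¹' Ici q) :=
      hK.of_isClosed_subset (hψ.preimage_isClosed_of_isClosed hKc isClosed_Ici) inter_subset_left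
    obtain ⟨t, ht⟩ := (h1.prod h2).elim_finite_subcover
      (fun f : F => {z : X × X | f.1 z.1 ≠ f.1 z.2})
      (fun f => isOpen_ne_fun (by fun_prop) (by fun_prop)) (by
        rintro ⟨x, y⟩ ⟨⟨hx, hx'⟩, hy, hy'⟩
        have hne : x ≠ y := by
          rintro rfl
          have h3 : ψ x ≤ p := hx'
          have h4 : q ≤ ψ x := hy'
          linarith
        obtain ⟨f, hf, hfxy⟩ := hF x hx y hy hne
        exact mem_iUnion.2 ⟨⟨f, hf⟩, hfxy⟩)
    refine ⟨t.image Subtype.val, ?_, fun _ x hx y hy hxp hyq => ?_⟩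
    · intro f hf
      obtain ⟨f', _, rfl⟩ := Finset.mem_image.1 (Finset.mem_coe.1 hf)
      exact f'.2
    · have h3 : (x, y) ∈ (K ∩ ψ ⁻¹' Iic p) ×ˢ (K ∩ ψ ⁻¹' Ici q) := ⟨⟨hx, hxp⟩, hy, hyq⟩
      obtain ⟨f, hf, hfxy⟩ := mem_iUnion₂.1 (ht h3)
      exact ⟨f.1, Finset.mem_image.2 ⟨f, hf, rfl⟩, hfxy⟩
  · exact ⟨∅, by simp, fun h => absurd h hpq⟩

omit [T2Space X] in
/-- the (easy) converse: a closed set `pts Y` which is Corson and separated by `fns Y` has a club
of good countable sets -/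
theorem good_club {Y : Set (X ⊕ C(X, ℝ))} (hYc : IsClosed (pts Y)) (hS : SigmaOn (pts Y))
    (hF : ∀ x ∈ pts Y, ∀ y ∈ pts Y, x ≠ y → ∃ f ∈ fns Y, f x ≠ f y) :
    ∃ C, ClubIn Y C ∧ ∀ N ∈ C, Good N := by
  classical
  obtain ⟨Γ, φ, hc, hi, hs⟩ := hS
  have hK : IsCompact (pts Y) := hYc.isCompact
  have h1 : ∀ (γ : Γ) (p q : ℚ), ∃ U : Finset C(X, ℝ), (U : Set C(X, ℝ)) ⊆ fns Y ∧
      ((p : ℝ) < q → ∀ x ∈ pts Y, ∀ y ∈ pts Y, φ x γ ≤ p → q ≤ φ y γ → ∃ u ∈ U, u x ≠ u y) :=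
    fun γ p q => exists_sepfin hK hYc hF ((continuous_apply γ).comp_continuousOn hc) p q
  choose U hUY hU using h1
  let g : Finset (X ⊕ C(X, ℝ)) → Set (X ⊕ C(X, ℝ)) := fun s =>
    ⋃ z ∈ (s : Set (X ⊕ C(X, ℝ))), {w | ∃ x ∈ pts Y, z = Sum.inl x ∧
      ∃ γ ∈ Function.support (φ x), ∃ p q : ℚ, ∃ u ∈ U γ p q, w = Sum.inr u}
  have hg : ∀ s, (g s).Countable := by
    intro s
    refine s.countable_toSet.biUnion fun z _ => ?_
    rcases z with x | f
    · by_cases hx : x ∈ pts Y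
      · refine ((hs x hx).biUnion fun γ _ => (countable_iUnion fun p : ℚ => countable_iUnion
          fun q : ℚ => ((U γ p q).countable_toSet.image
            (Sum.inr : C(X, ℝ) → X ⊕ C(X, ℝ))))).mono ?_
        rintro w ⟨x', _, h, γ, hγ, p, q, u, hu, rfl⟩
        rw [← Sum.inl_injective h] at hγ
        exact mem_iUnion₂.2 ⟨γ, hγ, mem_iUnion.2 ⟨p, mem_iUnion.2 ⟨q, u, hu, rfl⟩⟩⟩
      · convert countable_empty
        ext w
        simp only [mem_ofPred_eq, mem_empty_iff_false, iff_false, not_exists, not_and]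
        rintro y' hy' h
        exact absurd (Sum.inl_injective h ▸ hy') hx
    · convert countable_empty
      ext w
      simp
  have hY : Cld g Y := by
    intro s _ w hw
    obtain ⟨z, _, x, _, _, γ, _, p, q, u, hu, rfl⟩ := mem_iUnion₂.1 hw
    exact hUY γ p q hu
  refine ⟨_, clubIn_cld hg hY, ?_⟩
  rintro N ⟨hNY, _, hNcl⟩
  have hKN : KK N ⊆ pts Y := closure_minimal (pts_mono hNY) hYc
  have h2 : ∀ x ∈ KK N, ∀ γ, φ x γ ≠ 0 → ∀ p q : ℚ, ∀ u ∈ U γ p q, u ∈ fns N := by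
    intro x hx γ hγ p q u hu
    have h3 : Tendsto (fun b => φ b γ) (𝓝[pts N] x) (𝓝 (φ x γ)) :=
      ((continuous_apply γ).tendsto _).comp
        ((hc x (hKN hx)).mono_left (nhdsWithin_mono _ (pts_mono hNY)))
    have h4 : ∀ᶠ b in 𝓝[pts N] x, φ b γ ≠ 0 := h3.eventually_ne hγ
    have h5 : (𝓝[pts N] x).NeBot := mem_closure_iff_nhdsWithin_neBot.1 hx
    obtain ⟨b, hb, hbN⟩ := (h4.and self_mem_nhdsWithin).exists
    have h6 : Sum.inl b ∈ N := hbN
    exact hNcl {Sum.inl b} (by simpa using h6) (mem_iUnion₂.2 ⟨Sum.inl b, by simp, b, hNY h6, rfl,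
      γ, hb, p, q, u, hu, rfl⟩)
  intro x hx y hy hxy
  refine hi (hKN hx) (hKN hy) (funext fun γ => ?_)
  by_contra hne
  have h3 : ∀ p q : ℚ, ∀ u ∈ U γ p q, u x = u y := by
    intro p q u hu
    by_cases h0 : φ x γ = 0
    · have h0' : φ y γ ≠ 0 := fun h => hne (h0.trans h.symm)
      exact hxy u (h2 y hy γ h0' p q u hu)
    · exact hxy u (h2 x hx γ h0 p q u hu)
  rcases lt_or_gt_of_ne hne with hlt | hlt
  · obtain ⟨p, hp, hp'⟩ := exists_rat_btwn hlt
    obtain ⟨q, hq, hq'⟩ := exists_rat_btwn hp'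
    obtain ⟨u, hu, hne'⟩ := hU γ p q hq x (hKN hx) y (hKN hy) hp.le hq'.le
    exact hne' (h3 p q u hu)
  · obtain ⟨p, hp, hp'⟩ := exists_rat_btwn hlt
    obtain ⟨q, hq, hq'⟩ := exists_rat_btwn hp'
    obtain ⟨u, hu, hne'⟩ := hU γ p q hq y (hKN hy) x (hKN hx) hp.le hq'.le
    exact hne' (h3 p q u hu).symm

open Classical in
/-- limits of sequences of points, and separating functions -/
noncomputable def opr (X : Type u) [TopologicalSpace X] (k : ℕ) (a : ℕ → X ⊕ C(X, ℝ)) :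
    X ⊕ C(X, ℝ) :=
  if k = 0 then
    if h : ∃ (y : X) (x : ℕ → X), (∀ n, a n = Sum.inl (x n)) ∧ Tendsto x atTop (𝓝 y) then
      Sum.inl h.choose
    else a 0
  else
    if h : ∃ (f : C(X, ℝ)) (x y : X), a 0 = Sum.inl x ∧ a 1 = Sum.inl y ∧ f x ≠ f y then
      Sum.inr h.choose
    else a 0

/-- **Main theorem**: if stationary sets of countable sets reflect to sets of size at most `κ`
which are closed under given `ω`-ary operations, then a compact space in which the closures of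
all sets of size at most `κ` are Corson is Corson. -/
theorem sigma_of_reflection {κ : Cardinal.{u}}
    (hR : ∀ S : Set (Set (X ⊕ C(X, ℝ))), StatIn Set.univ S →
      ∀ h : ℕ → (ℕ → X ⊕ C(X, ℝ)) → X ⊕ C(X, ℝ), ∃ Y : Set (X ⊕ C(X, ℝ)), #Y ≤ κ ∧
        (∀ (k : ℕ) (a : ℕ → X ⊕ C(X, ℝ)), (∀ n, a n ∈ Y) → h k a ∈ Y) ∧ StatIn Y S)
    (hX : ∀ A : Set X, #A ≤ κ → SigmaOn (closure A)) : SigmaOn (Set.univ : Set X) := by
  classical
  by_contra hno
  have hS : StatIn Set.univ {N : Set (X ⊕ C(X, ℝ)) | ¬ Good N} := by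
    intro C hC
    by_contra hno'
    push Not at hno'
    obtain ⟨g, hg, hgC⟩ := exists_cld hC
    exact hno (sigma_univ hg fun N hN hcl => by
      have h1 := hno' N (hgC N hN hcl)
      by_contra h2
      exact h1 h2)
  obtain ⟨Y, hYκ, hYh, hYS⟩ := hR _ hS (opr X)
  have hA : #(pts Y) ≤ κ := by
    refine le_trans ?_ hYκ
    exact mk_le_of_injective (f := fun x : pts Y => (⟨Sum.inl x.1, x.2⟩ : Y)) (by
      intro x y h
      exact Subtype.ext (Sum.inl_injective (congrArg Subtype.val h)))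
  have hSA := hX _ hA
  have hcl : IsClosed (pts Y) := by
    refine isClosed_of_closure_subset fun x hx => ?_
    obtain ⟨a, ha, hax⟩ := frechet isClosed_closure.isCompact subset_closure hSA hx hx
    have h1 := hYh 0 (fun n => Sum.inl (a n)) ha
    have h2 : ∃ (y : X) (x : ℕ → X), (∀ n, (Sum.inl (a n) : X ⊕ C(X, ℝ)) = Sum.inl (x n)) ∧
        Tendsto x atTop (𝓝 y) := ⟨x, a, fun _ => rfl, hax⟩
    have h3 : h2.choose = x := by
      obtain ⟨b, hb, hb'⟩ := h2.choose_spec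
      have hab : b = a := funext fun n => (Sum.inl_injective (hb n)).symm
      rw [hab] at hb'
      exact tendsto_nhds_unique hb' hax
    have h4 : opr X 0 (fun n => Sum.inl (a n)) = Sum.inl x := by
      unfold opr
      rw [if_pos rfl, dif_pos h2, h3]
    rw [h4] at h1
    exact h1
  rw [hcl.closure_eq] at hSA
  have hF : ∀ x ∈ pts Y, ∀ y ∈ pts Y, x ≠ y → ∃ f ∈ fns Y, f x ≠ f y := by
    intro x hx y hy hxy
    obtain ⟨f, hf0, hf1, _⟩ := exists_continuous_zero_one_of_isClosed (isClosed_singleton (x := x))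
      (isClosed_singleton (x := y)) (by simpa using hxy)
    have hfxy : f x ≠ f y := by
      rw [hf0 (mem_singleton x), hf1 (mem_singleton y)]
      simp
    set a : ℕ → X ⊕ C(X, ℝ) := fun n => if n = 0 then Sum.inl x else Sum.inl y with ha
    have hx0 : Sum.inl x ∈ Y := hx
    have hy0 : Sum.inl y ∈ Y := hy
    have h1 := hYh 1 a (by
      intro n
      by_cases hn : n = 0
      · simpa [ha, hn] using hx0
      · simpa [ha, hn] using hy0)
    have h2 : ∃ (f : C(X, ℝ)) (x y : X), a 0 = Sum.inl x ∧ a 1 = Sum.inl y ∧ f x ≠ f y :=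
      ⟨f, x, y, by simp [ha], by simp [ha], hfxy⟩
    have h4 : opr X 1 a = Sum.inr h2.choose := by
      unfold opr
      rw [if_neg one_ne_zero, dif_pos h2]
    rw [h4] at h1
    obtain ⟨x', y', hx', hy', hne⟩ := h2.choose_spec
    have hxx : x' = x := by simpa [ha] using hx'.symm
    have hyy : y' = y := by simpa [ha] using hy'.symm
    rw [hxx, hyy] at hne
    exact ⟨h2.choose, h1, hne⟩
  obtain ⟨C, hC, hCG⟩ := good_club hcl hSA hF
  obtain ⟨N, hN, hbad⟩ := hYS C hC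
  exact hbad (hCG N hN)

end Main

end Pool.Agent.Lib_helper70.Cor
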