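import Pool.Agent.Lib_helper70.Corson.Emb

/-!
# Reflection of stationary sets of countable sets and Corson compacta
-/

set_option autoImplicit false

namespace Pool.Agent.Lib_helper70.Cor

open Set Cardinal Topology Filter

universe u

section Club

variable {Z : Type u}

/-- `C` is a club in `[Y]^ω` (the countable subsets of `Y`). -/
structure ClubIn (Y : Set Z) (C : Set (Set Z)) : Prop where
  /-- the members are countable subsets of `Y` -/
  sub : ∀ N ∈ C, N ⊆ Y ∧ N.Countable
  /-- unbounded -/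
  unb : ∀ A ⊆ Y, A.Countable → ∃ N ∈ C, A ⊆ N
  /-- closed under unions of increasing sequences -/
  chain : ∀ N : ℕ → Set Z, Monotone N → (∀ n, N n ∈ C) → (⋃ n, N n) ∈ C

/-- `S ∩ [Y]^ω` is stationary in `[Y]^ω`. -/
def StatIn (Y : Set Z) (S : Set (Set Z)) : Prop := ∀ C, ClubIn Y C → ∃ N ∈ C, N ∈ S

theorem clubIn_cld {g : Finset Z → Set Z} (hg : ∀ s, (g s).Countable) {Y : Set Z}
    (hY : Cld g Y) : ClubIn Y {N | N ⊆ Y ∧ N.Countable ∧ Cld g N} where
  sub N hN := ⟨hN.1, hN.2.1⟩
  unb A hA hc := ⟨hull g A, ⟨hull_min hY hA, hull_countable hg hc, hull_cld _ _⟩, subset_hull _ _⟩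
  chain N hN h := by
    refine ⟨iUnion_subset fun n => (h n).1, countable_iUnion fun n => (h n).2.1, ?_⟩
    intro s hs
    have h1 : ∀ z ∈ s, ∃ n, z ∈ N n := fun z hz => mem_iUnion.1 (hs hz)
    choose! n hn using h1
    have h2 : (s : Set Z) ⊆ N (s.sup n) := fun z hz => hN (Finset.le_sup hz) (hn z hz)
    exact ((h _).2.2 s h2).trans (subset_iUnion N _)

/-- every club contains the countable sets closed under some system of finitary operations -/
theorem exists_cld {C : Set (Set Z)} (hC : ClubIn univ C) : ∃ g : Finset Z → Set Z,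
    (∀ s, (g s).Countable) ∧ ∀ N : Set Z, N.Countable → Cld g N → N ∈ C := by
  classical
  have hU : ∀ A : Set Z, ∃ N : Set Z, A.Countable → N ∈ C ∧ A ⊆ N := by
    intro A
    by_cases hA : A.Countable
    · obtain ⟨N, hN, h⟩ := hC.unb A (subset_univ _) hA
      exact ⟨N, fun _ => ⟨hN, h⟩⟩
    · exact ⟨∅, fun h => absurd h hA⟩
  choose U hU using hU
  let f : Finset Z → Set Z := Finset.strongInduction
    fun s ih => U (↑s ∪ ⋃ t : {t // t ⊂ s}, ih t.1 t.2)
  have hf : ∀ s, f s = U (↑s ∪ ⋃ t : {t // t ⊂ s}, f t.1) := fun s =>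
    Finset.strongInduction_eq _ s
  have h1 : ∀ s, (f s).Countable := by
    intro s
    induction s using Finset.strongInduction with
    | H s ih =>
      have h2 : ((s : Set Z) ∪ ⋃ t : {t // t ⊂ s}, f t.1).Countable := by
        have : Finite {t // t ⊂ s} := Finite.of_injective
          (fun t : {t // t ⊂ s} => (⟨t.1, Finset.mem_powerset.2 t.2.subset⟩ : s.powerset)) (by
            intro t t' h
            exact Subtype.ext (by simpa using h))
        exact s.countable_toSet.union (countable_iUnion fun t => ih t.1 t.2)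
      rw [hf s]
      exact (hC.sub _ (hU _ h2).1).2
  have h2 : ∀ s : Finset Z, ((s : Set Z) ∪ ⋃ t : {t // t ⊂ s}, f t.1).Countable := by
    intro s
    have : Finite {t // t ⊂ s} := Finite.of_injective
      (fun t : {t // t ⊂ s} => (⟨t.1, Finset.mem_powerset.2 t.2.subset⟩ : s.powerset)) (by
        intro t t' h
        exact Subtype.ext (by simpa using h))
    exact s.countable_toSet.union (countable_iUnion fun t => h1 t.1)
  have h3 : ∀ s, f s ∈ C := fun s => by
    rw [hf s]
    exact (hU _ (h2 s)).1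
  have h4 : ∀ s : Finset Z, (s : Set Z) ⊆ f s := fun s => by
    rw [hf s]
    exact subset_union_left.trans (hU _ (h2 s)).2
  have h5 : ∀ s t, t ⊆ s → f t ⊆ f s := by
    intro s t hts
    rcases hts.ssubset_or_eq with h | h
    · rw [hf s]
      refine Subset.trans ?_ (hU _ (h2 s)).2
      exact (subset_iUnion (fun t : {t // t ⊂ s} => f t.1) ⟨t, h⟩).trans subset_union_right
    · rw [h]
  refine ⟨f, h1, fun N hN hcl => ?_⟩
  have h6 : ∃ F : ℕ → Finset Z, Monotone F ∧ (⋃ n, (F n : Set Z)) = N := by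
    rcases N.eq_empty_or_nonempty with h | h
    · exact ⟨fun _ => ∅, monotone_const, by simp [h]⟩
    · obtain ⟨e, he⟩ := hN.exists_eq_range h
      refine ⟨fun n => (Finset.range (n + 1)).image e, ?_, ?_⟩
      · intro m n hmn
        exact Finset.image_subset_image (Finset.range_mono (by omega))
      · rw [he]
        ext z
        simp only [Finset.coe_image, Finset.coe_range, mem_iUnion, mem_image, mem_Iio, mem_range]
        constructor
        · rintro ⟨n, m, _, rfl⟩
          exact ⟨m, rfl⟩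
        · rintro ⟨m, rfl⟩
          exact ⟨m, m, by omega, rfl⟩
  obtain ⟨F, hF, hFN⟩ := h6
  have h7 : (⋃ n, f (F n)) = N := by
    refine Subset.antisymm (iUnion_subset fun n => ?_) ?_
    · exact hcl (F n) (hFN ▸ subset_iUnion (fun n => (F n : Set Z)) n)
    · rw [← hFN]
      exact iUnion_mono fun n => h4 _
  rw [← h7]
  exact hC.chain (fun n => f (F n)) (fun m n hmn => h5 _ _ (hF hmn)) fun n => h3 _

end Club

section Frechet

variable {X : Type u} [TopologicalSpace X]

theorem frechet {K A : Set X} (hK : IsCompact K) (hAK : A ⊆ K) (hS : SigmaOn K) {x : X}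
    (hx : x ∈ closure A) (hxK : x ∈ K) : ∃ a : ℕ → X, (∀ n, a n ∈ A) ∧
      Tendsto a atTop (𝓝 x) := by
  classical
  obtain ⟨Γ, φ, hc, hi, hs⟩ := hS
  have h1 : ∀ (s : Finset (X ⊕ Γ)) (n : ℕ), ∃ b ∈ A, ∀ γ, (Sum.inr γ : X ⊕ Γ) ∈ s →
      |φ b γ - φ x γ| < 1 / ((n : ℝ) + 1) := by
    intro s n
    have hε : (0 : ℝ) < 1 / ((n : ℝ) + 1) := by positivity
    let t : Finset Γ := s.preimage Sum.inr Sum.inr_injective.injOn
    have h2 : ∀ γ ∈ t, ∀ᶠ b in 𝓝[A] x, |φ b γ - φ x γ| < 1 / ((n : ℝ) + 1) := by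
      intro γ _
      have h3 : Tendsto (fun b => φ b γ) (𝓝[A] x) (𝓝 (φ x γ)) :=
        ((continuous_apply γ).tendsto _).comp ((hc x hxK).mono_left (nhdsWithin_mono _ hAK))
      have h4 := (Metric.tendsto_nhds.1 h3) _ hε
      simpa [Real.dist_eq] using h4
    have h5 : ∀ᶠ b in 𝓝[A] x, ∀ γ ∈ t, |φ b γ - φ x γ| < 1 / ((n : ℝ) + 1) :=
      (Finset.eventually_all t).2 h2
    have h6 : (𝓝[A] x).NeBot := mem_closure_iff_nhdsWithin_neBot.1 hx
    obtain ⟨b, hb, hbA⟩ := (h5.and self_mem_nhdsWithin).exists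
    exact ⟨b, hbA, fun γ hγ => hb γ (Finset.mem_preimage.2 hγ)⟩
  choose b hbA hb using h1
  let g : Finset (X ⊕ Γ) → Set (X ⊕ Γ) := fun s => (range fun n : ℕ => Sum.inl (b s n)) ∪
    ⋃ z ∈ (s : Set (X ⊕ Γ)), {w | ∃ y ∈ K, z = Sum.inl y ∧ ∃ γ ∈ Function.support (φ y), w = Sum.inr γ}
  have hg : ∀ s, (g s).Countable := by
    intro s
    refine (countable_range _).union (s.countable_toSet.biUnion fun z _ => ?_)
    rcases z with y | γ
    · by_cases hy : y ∈ K
      · refine ((hs y hy).image Sum.inr).mono ?_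
        rintro w ⟨y', _, h, γ, hγ, rfl⟩
        exact ⟨γ, by rw [Sum.inl_injective h]; exact hγ, rfl⟩
      · convert countable_empty
        ext w
        simp only [mem_ofPred_eq, mem_empty_iff_false, iff_false, not_exists, not_and]
        rintro y' hy' h
        exact absurd (Sum.inl_injective h ▸ hy') hy
    · convert countable_empty
      ext w
      simp
  let N := hull g (Sum.inr '' Function.support (φ x))
  have hN : N.Countable := hull_countable hg ((hs x hxK).image _)
  have hNc : Cld g N := hull_cld _ _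
  set T : Set Γ := {γ | Sum.inr γ ∈ N} with hT
  have hTc : T.Countable := hN.preimage Sum.inr_injective
  have h6 : ∃ F : ℕ → Finset Γ, Monotone F ∧ (⋃ n, (F n : Set Γ)) = T := by
    rcases T.eq_empty_or_nonempty with h | h
    · exact ⟨fun _ => ∅, monotone_const, by simp [h]⟩
    · obtain ⟨e, he⟩ := hTc.exists_eq_range h
      refine ⟨fun n => (Finset.range (n + 1)).image e, ?_, ?_⟩
      · intro m n hmn
        exact Finset.image_subset_image (Finset.range_mono (by omega))
      · rw [he]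
        ext z
        simp only [Finset.coe_image, Finset.coe_range, mem_iUnion, mem_image, mem_Iio, mem_range]
        constructor
        · rintro ⟨n, m, _, rfl⟩
          exact ⟨m, rfl⟩
        · rintro ⟨m, rfl⟩
          exact ⟨m, m, by omega, rfl⟩
  obtain ⟨F, hF, hFT⟩ := h6
  let s : ℕ → Finset (X ⊕ Γ) := fun n => (F n).map ⟨Sum.inr, Sum.inr_injective⟩
  have hsN : ∀ n, (s n : Set (X ⊕ Γ)) ⊆ N := by
    intro n z hz
    obtain ⟨γ, hγ, rfl⟩ := Finset.mem_map.1 (Finset.mem_coe.1 hz)
    have : γ ∈ T := hFT ▸ mem_iUnion.2 ⟨n, hγ⟩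
    exact this
  let a : ℕ → X := fun n => b (s n) n
  have haN : ∀ n, Sum.inl (a n) ∈ N := fun n => hNc (s n) (hsN n) (Or.inl ⟨n, rfl⟩)
  have haA : ∀ n, a n ∈ A := fun n => hbA _ _
  have haT : ∀ n γ, γ ∉ T → φ (a n) γ = 0 := by
    intro n γ hγ
    by_contra hne
    apply hγ
    have h7 := hNc {Sum.inl (a n)} (by simpa using haN n)
    refine h7 (Or.inr (mem_iUnion₂.2 ⟨Sum.inl (a n), by simp, a n, hAK (haA n), rfl, γ, hne, rfl⟩))
  have hxT : ∀ γ, γ ∉ T → φ x γ = 0 := by
    intro γ hγ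
    by_contra hne
    exact hγ (subset_hull _ _ ⟨γ, hne, rfl⟩)
  have h8 : Tendsto (fun n => φ (a n)) atTop (𝓝 (φ x)) := by
    rw [tendsto_pi_nhds]
    intro γ
    by_cases hγ : γ ∈ T
    · rw [← hFT] at hγ
      obtain ⟨m, hm⟩ := mem_iUnion.1 hγ
      rw [tendsto_iff_dist_tendsto_zero]
      refine squeeze_zero' (Eventually.of_forall fun _ => dist_nonneg) ?_
        (tendsto_one_div_add_atTop_nhds_zero_nat (𝕜 := ℝ))
      filter_upwards [eventually_ge_atTop m] with n hn
      rw [Real.dist_eq]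
      exact (hb (s n) n γ (Finset.mem_map.2 ⟨γ, hF hn hm, rfl⟩)).le
    · simp only [haT _ γ hγ, hxT γ hγ]
      exact tendsto_const_nhds
  refine ⟨a, haA, ?_⟩
  have : CompactSpace K := isCompact_iff_compactSpace.1 hK
  have hcl : IsClosedEmbedding (K.domRestrict φ) :=
    (continuousOn_iff_continuous_domRestrict.1 hc).isClosedEmbedding (by
      intro y z h
      exact Subtype.ext (hi y.2 z.2 h))
  have h9 : Tendsto (fun n => (⟨a n, hAK (haA n)⟩ : K)) atTop (𝓝 ⟨x, hxK⟩) := by
    rw [hcl.isInducing.tendsto_nhds_iff]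
    exact h8
  exact (continuous_subtype_val.tendsto _).comp h9

end Frechet

end Pool.Agent.Lib_helper70.Cor
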