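import Pool.Agent.Lib_helper70.Corson.Hull

/-!
# A compact space with a club of good countable pairs is Corson

`X` compact Hausdorff. A set `N` of points and continuous functions is *good* if the functions in
`N` separate the points of the closure of the set of points in `N`. If all countable `N` closed
under a system of finitary operations are good then `X` embeds in a `Σ`-product of real lines.
-/

set_option autoImplicit false

namespace Pool.Agent.Lib_helper70.Cor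

open Set Cardinal Topology Filter

universe u

variable {X : Type u} [TopologicalSpace X]

/-- points of `N` -/
def pts (N : Set (X ⊕ C(X, ℝ))) : Set X := {x | Sum.inl x ∈ N}

/-- functions of `N` -/
def fns (N : Set (X ⊕ C(X, ℝ))) : Set C(X, ℝ) := {f | Sum.inr f ∈ N}

/-- closure of the set of points of `N` -/
def KK (N : Set (X ⊕ C(X, ℝ))) : Set X := closure (pts N)

/-- `N` is good: its functions separate the points of the closure of its set of points -/
def Good (N : Set (X ⊕ C(X, ℝ))) : Prop :=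
  ∀ x ∈ KK N, ∀ y ∈ KK N, (∀ f ∈ fns N, f x = f y) → x = y

theorem pts_mono {M N : Set (X ⊕ C(X, ℝ))} (h : M ⊆ N) : pts M ⊆ pts N := fun _ hx => h hx

theorem fns_mono {M N : Set (X ⊕ C(X, ℝ))} (h : M ⊆ N) : fns M ⊆ fns N := fun _ hx => h hx

theorem KK_mono {M N : Set (X ⊕ C(X, ℝ))} (h : M ⊆ N) : KK M ⊆ KK N := closure_mono (pts_mono h)

section Compact

variable [CompactSpace X]

theorem exists_cluster {A : Set X} {F : Set C(X, ℝ)} {x : X}
    (h : ∀ s : Finset C(X, ℝ), (s : Set C(X, ℝ)) ⊆ F → ∀ n : ℕ,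
      ∃ a ∈ A, ∀ f ∈ s, |f a - f x| < 1 / ((n : ℝ) + 1)) :
    ∃ x' ∈ closure A, ∀ f ∈ F, f x' = f x := by
  classical
  have hc : IsCompact (closure A) := isClosed_closure.isCompact
  have h1 := hc.inter_iInter_nonempty (ι := F × ℕ)
    (fun i => {y | |i.1.1 y - i.1.1 x| ≤ 1 / ((i.2 : ℝ) + 1)})
    (fun i => isClosed_le (by fun_prop) continuous_const) ?_
  · obtain ⟨x', hx', hx''⟩ := h1
    refine ⟨x', hx', fun f hf => ?_⟩
    have h2 : ∀ n : ℕ, |f x' - f x| ≤ 1 / ((n : ℝ) + 1) :=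
      fun n => mem_iInter.1 hx'' (⟨f, hf⟩, n)
    have h3 : |f x' - f x| ≤ 0 := by
      refine ge_of_tendsto' (tendsto_one_div_add_atTop_nhds_zero_nat (𝕜 := ℝ)) h2
    exact sub_eq_zero.1 (abs_nonpos_iff.1 h3)
  · intro u
    obtain ⟨a, ha, ha'⟩ := h (u.image fun i => i.1.1) (by
      intro f hf
      obtain ⟨i, _, rfl⟩ := Finset.mem_image.1 (Finset.mem_coe.1 hf)
      exact i.1.2) (u.sup fun i => i.2)
    refine ⟨a, subset_closure ha, ?_⟩
    simp only [mem_iInter, mem_ofPred_eq]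
    intro i hi
    refine (ha' i.1.1 (Finset.mem_image.2 ⟨i, hi, rfl⟩)).le.trans ?_
    have : (i.2 : ℝ) ≤ ((u.sup fun i => i.2 : ℕ) : ℝ) := by
      exact_mod_cast Finset.le_sup (f := fun i : F × ℕ => i.2) hi
    gcongr

omit [CompactSpace X] in
/-- countable sets with dense image -/
theorem exists_dense_img (s : Finset (X ⊕ C(X, ℝ))) : ∃ D : Set X, D.Countable ∧
    ∀ x, ∀ n : ℕ, ∃ a ∈ D, ∀ f : C(X, ℝ), Sum.inr f ∈ s → |f a - f x| < 1 / ((n : ℝ) + 1) := by
  classical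
  let I := {f : C(X, ℝ) // (Sum.inr f : X ⊕ C(X, ℝ)) ∈ s}
  have hI : Finite I := Finite.of_injective (fun f : I => (⟨Sum.inr f.1, f.2⟩ : s)) (by
    intro f g h
    exact Subtype.ext (Sum.inr_injective (congrArg Subtype.val h)))
  have := Fintype.ofFinite I
  let Φ : X → (I → ℝ) := fun x f => f.1 x
  obtain ⟨c, hc, hd⟩ := TopologicalSpace.exists_countable_dense (range Φ)
  choose v hv using fun p : range Φ => p.2
  refine ⟨v '' c, hc.image v, fun x n => ?_⟩
  have hε : (0 : ℝ) < 1 / ((n : ℝ) + 1) := by positivity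
  obtain ⟨p, hp, hpc⟩ := hd.exists_dist_lt (⟨Φ x, x, rfl⟩ : range Φ) hε
  refine ⟨v p, ⟨p, hp, rfl⟩, fun f hf => ?_⟩
  have h1 : dist (Φ x) p.1 < 1 / ((n : ℝ) + 1) := hpc
  have h2 := (dist_pi_lt_iff hε).1 h1 ⟨f, hf⟩
  have h3 : p.1 ⟨f, hf⟩ = f (v p) := by
    rw [← hv p]
  rw [h3, Real.dist_eq, abs_sub_comm] at h2
  exact h2

/-- chosen countable set with dense image -/
noncomputable def dimg (s : Finset (X ⊕ C(X, ℝ))) : Set X := (exists_dense_img s).choose

omit [CompactSpace X] in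
theorem dimg_countable (s : Finset (X ⊕ C(X, ℝ))) : (dimg s).Countable :=
  (exists_dense_img s).choose_spec.1

omit [CompactSpace X] in
theorem dimg_dense (s : Finset (X ⊕ C(X, ℝ))) (x : X) (n : ℕ) :
    ∃ a ∈ dimg s, ∀ f : C(X, ℝ), Sum.inr f ∈ s → |f a - f x| < 1 / ((n : ℝ) + 1) :=
  (exists_dense_img s).choose_spec.2 x n

/-- the operations of `g` together with the countable sets with dense image -/
noncomputable def gg (g : Finset (X ⊕ C(X, ℝ)) → Set (X ⊕ C(X, ℝ)))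
    (s : Finset (X ⊕ C(X, ℝ))) : Set (X ⊕ C(X, ℝ)) := g s ∪ Sum.inl '' dimg s

theorem gg_countable {g : Finset (X ⊕ C(X, ℝ)) → Set (X ⊕ C(X, ℝ))}
    (hg : ∀ s, (g s).Countable) (s : Finset (X ⊕ C(X, ℝ))) : (gg g s).Countable :=
  (hg s).union ((dimg_countable s).image _)

theorem cl_dense {g : Finset (X ⊕ C(X, ℝ)) → Set (X ⊕ C(X, ℝ))} {M : Set (X ⊕ C(X, ℝ))}
    (hM : Cld (gg g) M) (x : X) (s : Finset C(X, ℝ)) (hs : (s : Set C(X, ℝ)) ⊆ fns M) (n : ℕ) :
    ∃ a ∈ pts M, ∀ f ∈ s, |f a - f x| < 1 / ((n : ℝ) + 1) := by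
  classical
  have h1 : ((s.map ⟨Sum.inr, Sum.inr_injective⟩ : Finset (X ⊕ C(X, ℝ))) :
      Set (X ⊕ C(X, ℝ))) ⊆ M := by
    intro z hz
    obtain ⟨f, hf, rfl⟩ := Finset.mem_map.1 (Finset.mem_coe.1 hz)
    exact hs hf
  obtain ⟨a, ha, h2⟩ := dimg_dense (s.map ⟨Sum.inr, Sum.inr_injective⟩) x n
  exact ⟨a, hM _ h1 (Or.inr ⟨a, ha, rfl⟩), fun f hf => h2 f (Finset.mem_map.2 ⟨f, hf, rfl⟩)⟩

/-- the closure of the points of `M` is covered by the closures of the points of the countable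
closed subsets -/
theorem cl_tight {g : Finset (X ⊕ C(X, ℝ)) → Set (X ⊕ C(X, ℝ))} (hg : ∀ s, (g s).Countable)
    (H : ∀ N : Set (X ⊕ C(X, ℝ)), N.Countable → Cld (gg g) N → Good N)
    {M : Set (X ⊕ C(X, ℝ))} (hM : Cld (gg g) M) {x : X} (hx : x ∈ KK M) :
    ∃ N ⊆ M, N.Countable ∧ Cld (gg g) N ∧ x ∈ KK N := by
  classical
  have h1 : ∀ (s : Finset (X ⊕ C(X, ℝ))) (n : ℕ), ∃ a ∈ pts M, ∀ f : C(X, ℝ), Sum.inr f ∈ s →
      |f a - f x| < 1 / ((n : ℝ) + 1) := by
    intro s n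
    have hε : (0 : ℝ) < 1 / ((n : ℝ) + 1) := by positivity
    let sf : Finset C(X, ℝ) := s.preimage Sum.inr Sum.inr_injective.injOn
    have hO : IsOpen (⋂ f ∈ sf, {y : X | |f y - f x| < 1 / ((n : ℝ) + 1)}) :=
      isOpen_biInter_finset fun f _ =>
        isOpen_lt ((f.continuous.sub continuous_const).abs) continuous_const
    obtain ⟨a, ha, ha'⟩ := mem_closure_iff.1 hx _ hO (by
      simp only [mem_iInter, mem_ofPred_eq]
      intro f _
      simpa using hε)
    refine ⟨a, ha', fun f hf => ?_⟩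
    have h2 := mem_iInter₂.1 ha f (Finset.mem_preimage.2 hf)
    exact h2
  choose a ha ha' using h1
  let g' : Finset (X ⊕ C(X, ℝ)) → Set (X ⊕ C(X, ℝ)) :=
    fun s => gg g s ∪ range fun n : ℕ => Sum.inl (a s n)
  have hg' : ∀ s, (g' s).Countable := fun s => (gg_countable hg s).union (countable_range _)
  let N' := hull g' {Sum.inl x}
  have hN'c : N'.Countable := hull_countable hg' (countable_singleton _)
  have hN' : Cld g' N' := hull_cld _ _
  have hN'2 : Cld (gg g) N' := hN'.mono fun s => subset_union_left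
  have hxN' : x ∈ pts N' := subset_hull g' {Sum.inl x} (mem_singleton _)
  refine ⟨N' ∩ M, inter_subset_right, hN'c.mono inter_subset_left, hN'2.inter hM, ?_⟩
  obtain ⟨x', hx', hx''⟩ := exists_cluster (A := pts (N' ∩ M)) (F := fns N') (x := x) (by
    intro s hs n
    have h2 : ((s.map ⟨Sum.inr, Sum.inr_injective⟩ : Finset (X ⊕ C(X, ℝ))) :
        Set (X ⊕ C(X, ℝ))) ⊆ N' := by
      intro z hz
      obtain ⟨f, hf, rfl⟩ := Finset.mem_map.1 (Finset.mem_coe.1 hz)
      exact hs hf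
    refine ⟨a (s.map ⟨Sum.inr, Sum.inr_injective⟩) n, ⟨hN' _ h2 (Or.inr ⟨n, rfl⟩), ha _ _⟩,
      fun f hf => ha' _ _ f (Finset.mem_map.2 ⟨f, hf, rfl⟩)⟩)
  have h3 : x' = x := H N' hN'c hN'2 x' (KK_mono inter_subset_left hx') x
    (subset_closure hxN') hx''
  exact h3 ▸ hx'

/-- closed sets of any size are good -/
theorem cl_good {g : Finset (X ⊕ C(X, ℝ)) → Set (X ⊕ C(X, ℝ))} (hg : ∀ s, (g s).Countable)
    (H : ∀ N : Set (X ⊕ C(X, ℝ)), N.Countable → Cld (gg g) N → Good N)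
    {M : Set (X ⊕ C(X, ℝ))} (hM : Cld (gg g) M) : Good M := by
  intro x hx y hy hxy
  obtain ⟨N1, hN1, hc1, _, hx1⟩ := cl_tight hg H hM hx
  obtain ⟨N2, hN2, hc2, _, hy2⟩ := cl_tight hg H hM hy
  have h1 : hull (gg g) (N1 ∪ N2) ⊆ M := hull_min hM (union_subset hN1 hN2)
  refine H (hull (gg g) (N1 ∪ N2)) (hull_countable (gg_countable hg) (hc1.union hc2))
    (hull_cld _ _) x ?_ y ?_ fun f hf => hxy f (h1 hf)
  · exact KK_mono (subset_union_left.trans (subset_hull _ _)) hx1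
  · exact KK_mono (subset_union_right.trans (subset_hull _ _)) hy2

/-- the retraction onto the closure of the points of `M` -/
theorem exists_ret {g : Finset (X ⊕ C(X, ℝ)) → Set (X ⊕ C(X, ℝ))}
    {M : Set (X ⊕ C(X, ℝ))} (hM : Cld (gg g) M) (x : X) :
    ∃ x' ∈ KK M, ∀ f ∈ fns M, f x' = f x :=
  exists_cluster fun s hs n => cl_dense hM x s hs n

open Classical in
/-- the retraction onto the closure of the points of `M` -/
noncomputable def ret (M : Set (X ⊕ C(X, ℝ))) (x : X) : X :=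
  if h : ∃ x' ∈ KK M, ∀ f ∈ fns M, f x' = f x then h.choose else x

theorem ret_mem {g : Finset (X ⊕ C(X, ℝ)) → Set (X ⊕ C(X, ℝ))}
    {M : Set (X ⊕ C(X, ℝ))} (hM : Cld (gg g) M) (x : X) : ret M x ∈ KK M := by
  unfold ret
  rw [dif_pos (exists_ret hM x)]
  exact (exists_ret hM x).choose_spec.1

theorem ret_eq {g : Finset (X ⊕ C(X, ℝ)) → Set (X ⊕ C(X, ℝ))}
    {M : Set (X ⊕ C(X, ℝ))} (hM : Cld (gg g) M) (x : X) {f : C(X, ℝ)} (hf : f ∈ fns M) :
    f (ret M x) = f x := by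
  unfold ret
  rw [dif_pos (exists_ret hM x)]
  exact (exists_ret hM x).choose_spec.2 f hf

theorem ret_unique {g : Finset (X ⊕ C(X, ℝ)) → Set (X ⊕ C(X, ℝ))}
    {M : Set (X ⊕ C(X, ℝ))} (hM : Cld (gg g) M) (hG : Good M) {x y : X} (hy : y ∈ KK M)
    (h : ∀ f ∈ fns M, f y = f x) : ret M x = y :=
  hG _ (ret_mem hM x) _ hy fun f hf => (ret_eq hM x hf).trans (h f hf).symm

theorem ret_continuous {g : Finset (X ⊕ C(X, ℝ)) → Set (X ⊕ C(X, ℝ))}
    {M : Set (X ⊕ C(X, ℝ))} (hM : Cld (gg g) M) (hG : Good M) : Continuous (ret M) := by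
  rw [continuous_iff_isClosed]
  intro C hC
  have h1 : ret M ⁻¹' C = Prod.fst '' {p : X × X | p.2 ∈ KK M ∧ p.2 ∈ C ∧
      ∀ f ∈ fns M, f p.2 = f p.1} := by
    ext x
    constructor
    · intro hx
      exact ⟨(x, ret M x), ⟨ret_mem hM x, hx, fun f hf => ret_eq hM x hf⟩, rfl⟩
    · rintro ⟨⟨x', y⟩, ⟨h1, h2, h3⟩, rfl⟩
      have h4 : ret M x' = y := ret_unique hM hG h1 h3
      show ret M x' ∈ C
      rw [h4]
      exact h2
  rw [h1]
  refine isClosedMap_fst_of_compactSpace _ ?_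
  refine (isClosed_closure.preimage continuous_snd).inter ((hC.preimage continuous_snd).inter ?_)
  have h2 : {p : X × X | ∀ f ∈ fns M, f p.2 = f p.1} =
      ⋂ f ∈ fns M, {p : X × X | f p.2 = f p.1} := by
    ext p
    simp
  have h3 : IsClosed {p : X × X | ∀ f ∈ fns M, f p.2 = f p.1} := by
    rw [h2]
    exact isClosed_biInter fun _ _ => isClosed_eq (by fun_prop) (by fun_prop)
  exact h3

theorem ret_self {g : Finset (X ⊕ C(X, ℝ)) → Set (X ⊕ C(X, ℝ))}
    {M : Set (X ⊕ C(X, ℝ))} (hM : Cld (gg g) M) (hG : Good M) {x : X} (hx : x ∈ KK M) :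
    ret M x = x := ret_unique hM hG hx fun _ _ => rfl

theorem ret_ret {g : Finset (X ⊕ C(X, ℝ)) → Set (X ⊕ C(X, ℝ))}
    {M N : Set (X ⊕ C(X, ℝ))} (hM : Cld (gg g) M) (hN : Cld (gg g) N) (hGM : Good M)
    (h : M ⊆ N) (x : X) : ret M (ret N x) = ret M x :=
  ret_unique hM hGM (ret_mem hM x) fun f hf =>
    (ret_eq hM x hf).trans (ret_eq hN x (fns_mono h hf)).symm

end Compact

end Pool.Agent.Lib_helper70.Cor
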